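import Pool.Agent.Helper45.HD.Frames
import Pool.Agent.Helper43.SC.Br4

/-! (F1) the bridge for randomised guesses. -/

set_option autoImplicit false

namespace Pool.Agent.Helper43.HD

open Finset
open Pool.Agent.Helper7.SC (law ka Kz StT StL e)
open Pool.Agent.Helper57.LJ (dig)
open Pool.Agent.Helper45.HD (StEn StC2)
open Pool.Agent.Helper43.SC

/-- a convex combination of bounded numbers -/
lemma norm_comb_le (b : ℕ) (M : ℝ) (u : ℕ → ℝ) (hu0 : ∀ a, 0 ≤ u a)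
    (hu1 : ∑ a ∈ range b, u a = 1) (c : ℕ → ℂ) (hc : ∀ d, ‖c d‖ ≤ M) :
    ‖∑ a ∈ range b, (u a : ℂ) * c a‖ ≤ M := by
  refine (norm_sum_le _ _).trans ?_
  have h1 : ∀ a ∈ range b, ‖(u a : ℂ) * c a‖ ≤ u a * M := by
    intro a _
    rw [norm_mul, Complex.norm_real, Real.norm_of_nonneg (hu0 a)]
    exact mul_le_mul_of_nonneg_left (hc a) (hu0 a)
  refine (Finset.sum_le_sum h1).trans (le_of_eq ?_)
  rw [← Finset.sum_mul, hu1, one_mul]

/-- the difference of two combinations -/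
lemma norm_comb_sub_le (b : ℕ) (M : ℝ) (u v : ℕ → ℝ) (c : ℕ → ℂ) (hc : ∀ d, ‖c d‖ ≤ M) :
    ‖∑ a ∈ range b, (u a : ℂ) * c a - ∑ a ∈ range b, (v a : ℂ) * c a‖ ≤
      M * ∑ a ∈ range b, |u a - v a| := by
  rw [← Finset.sum_sub_distrib, Finset.mul_sum]
  refine (norm_sum_le _ _).trans (Finset.sum_le_sum fun a _ => ?_)
  have h1 : (u a : ℂ) * c a - (v a : ℂ) * c a = ((u a - v a : ℝ) : ℂ) * c a := by
    push_cast
    ring
  rw [h1, norm_mul, Complex.norm_real, Real.norm_eq_abs, mul_comm]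
  exact mul_le_mul_of_nonneg_right (hc a) (abs_nonneg _)

/-- the stability of a family of functions, by Cauchy-Schwarz -/
lemma stab2 (hL : StL) (hE : StEn) (b q r m K : ℕ) (hb : 2 ≤ b)
    (hrm : r + m * q ≤ K) (p : ℝ) (hp0 : 0 ≤ p) (hp1 : p ≤ 1) [Fintype (ZMod (b ^ K))]
    (Φ : ℕ → ZMod (b ^ K) → ℝ) :
    ∑ n, ∑ t, law b q r m K p t * ∑ a ∈ range b, |Φ a n - Φ a (n + t)| ≤
      Real.sqrt ((b : ℝ) ^ K * (b * p * ((b : ℝ) ^ q) ^ 2 * ∑ a ∈ range b, ∑ j ∈ range K,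
        ∑ n, (Φ a n - Φ a (n + (b : ZMod (b ^ K)) ^ j)) ^ 2)) := by
  obtain ⟨hl0, hl1'⟩ := hL b q r m K p hb hp0 hp1
  have hl1 : ∑ t, law b q r m K p t = 1 := hl1'
  have hbpos : 0 < b ^ K := Nat.pow_pos (by omega)
  have hne : NeZero (b ^ K) := ⟨hbpos.ne'⟩
  have hcard : Fintype.card (ZMod (b ^ K)) = b ^ K := ZMod.card (b ^ K)
  apply Real.le_sqrt_of_sq_le
  obtain ⟨Δ, hΔ⟩ : ∃ Δ : ZMod (b ^ K) → ZMod (b ^ K) → ℝ, Δ = fun n t =>
      ∑ a ∈ range b, |Φ a n - Φ a (n + t)| := ⟨_, rfl⟩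
  have h1 : (∑ n, ∑ t, law b q r m K p t * Δ n t) ^ 2 ≤
      (∑ n : ZMod (b ^ K), ∑ t : ZMod (b ^ K), law b q r m K p t) *
        ∑ n, ∑ t, law b q r m K p t * Δ n t ^ 2 := by
    have h2 := Finset.sum_sq_le_sum_mul_sum_of_sq_le_mul
      ((univ : Finset (ZMod (b ^ K))) ×ˢ (univ : Finset (ZMod (b ^ K))))
      (r := fun x => law b q r m K p x.2 * Δ x.1 x.2) (f := fun x => law b q r m K p x.2)
      (g := fun x => law b q r m K p x.2 * Δ x.1 x.2 ^ 2) (fun x _ => hl0 x.2)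
      (fun x _ => mul_nonneg (hl0 x.2) (sq_nonneg _)) (fun x _ => le_of_eq (by ring))
    rw [Finset.sum_product, Finset.sum_product, Finset.sum_product] at h2
    exact h2
  have h3 : ∑ n : ZMod (b ^ K), ∑ t : ZMod (b ^ K), law b q r m K p t = (b : ℝ) ^ K := by
    rw [Finset.sum_congr rfl fun n _ => hl1, Finset.sum_const, card_univ, hcard]
    simp
  have h4 : ∑ n, ∑ t, law b q r m K p t * Δ n t ^ 2 ≤
      b * p * ((b : ℝ) ^ q) ^ 2 * ∑ a ∈ range b, ∑ j ∈ range K,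
        ∑ n, (Φ a n - Φ a (n + (b : ZMod (b ^ K)) ^ j)) ^ 2 := by
    have h5 : ∀ n t, Δ n t ^ 2 ≤ b * ∑ a ∈ range b, (Φ a n - Φ a (n + t)) ^ 2 := by
      intro n t
      have h6 := sq_sum_le_card_mul_sum_sq (s := range b) (f := fun a => |Φ a n - Φ a (n + t)|)
      rw [card_range] at h6
      rw [hΔ]
      refine h6.trans (le_of_eq ?_)
      congr 1
      exact Finset.sum_congr rfl fun a _ => sq_abs _
    have h7 : ∑ n, ∑ t, law b q r m K p t * Δ n t ^ 2 ≤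
        ∑ n, ∑ t, law b q r m K p t * (b * ∑ a ∈ range b, (Φ a n - Φ a (n + t)) ^ 2) :=
      Finset.sum_le_sum fun n _ => Finset.sum_le_sum fun t _ =>
        mul_le_mul_of_nonneg_left (h5 n t) (hl0 t)
    refine h7.trans ?_
    have h8 : ∑ n, ∑ t, law b q r m K p t * (b * ∑ a ∈ range b, (Φ a n - Φ a (n + t)) ^ 2) =
        b * ∑ a ∈ range b, ∑ n, ∑ t, law b q r m K p t * (Φ a n - Φ a (n + t)) ^ 2 := by
      rw [Finset.sum_comm (s := range b), Finset.mul_sum]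
      refine Finset.sum_congr rfl fun n _ => ?_
      rw [Finset.sum_comm (s := range b), Finset.mul_sum]
      refine Finset.sum_congr rfl fun t _ => ?_
      rw [← Finset.mul_sum]
      ring
    rw [h8]
    have h9 : ∑ a ∈ range b, ∑ n, ∑ t, law b q r m K p t * (Φ a n - Φ a (n + t)) ^ 2 ≤
        ∑ a ∈ range b, p * ((b : ℝ) ^ q) ^ 2 * ∑ j ∈ range K,
          ∑ n, (Φ a n - Φ a (n + (b : ZMod (b ^ K)) ^ j)) ^ 2 :=
      Finset.sum_le_sum fun a _ => hE b q r m K p hb hrm hp0 hp1 (Φ a)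
    refine (mul_le_mul_of_nonneg_left h9 (Nat.cast_nonneg b)).trans (le_of_eq ?_)
    rw [← Finset.mul_sum]
    ring
  rw [hΔ] at h1 h4
  rw [h3] at h1
  exact h1.trans (mul_le_mul_of_nonneg_left h4 (by positivity))

/-- one digit and one frequency -/
lemma corr2 (hT : StT) (hL : StL) (hE : StEn) (b q r m K : ℕ) (hb : 2 ≤ b)
    (hrm : r + m * q ≤ K) (p : ℝ) (hp0 : 0 ≤ p) (hp1 : p ≤ 1) [Fintype (ZMod (b ^ K))]
    (M : ℝ) (hM : 0 < M) (g : ZMod (b ^ K) → ℂ) (hg : ∀ n, ‖g n‖ ≤ 1)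
    (Φ : ℕ → ZMod (b ^ K) → ℝ) (hΦ0 : ∀ a n, 0 ≤ Φ a n)
    (hΦ1 : ∀ n, ∑ a ∈ range b, Φ a n = 1) (c : ℕ → ℂ) (hc : ∀ d, ‖c d‖ ≤ M) :
    ‖∑ n, g n * ∑ a ∈ range b, (Φ a n : ℂ) * c a‖ ≤ M * (Real.sqrt ((b : ℝ) ^ K *
        (∑ n, ∑ t, law b q r m K p t * (g n * (starRingEnd ℂ) (g (n + t)))).re) +
      Real.sqrt ((b : ℝ) ^ K * (b * p * ((b : ℝ) ^ q) ^ 2 * ∑ a ∈ range b, ∑ j ∈ range K,
        ∑ n, (Φ a n - Φ a (n + (b : ZMod (b ^ K)) ^ j)) ^ 2))) := by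
  obtain ⟨hl0, hl1'⟩ := hL b q r m K p hb hp0 hp1
  have hl1 : ∑ t, law b q r m K p t = 1 := hl1'
  have hMC : (M : ℂ) ≠ 0 := by exact_mod_cast hM.ne'
  obtain ⟨cc, hcc⟩ : ∃ cc : ZMod (b ^ K) → ℂ, cc = fun n =>
      ∑ a ∈ range b, (Φ a n : ℂ) * c a := ⟨_, rfl⟩
  have hcc1 : ∀ n, ‖cc n‖ ≤ M := by
    intro n
    rw [hcc]
    exact norm_comb_le b M (fun a => Φ a n) (fun a => hΦ0 a n) (hΦ1 n) c hc
  have hc' : ∀ n, ‖cc n / (M : ℂ)‖ ≤ 1 := by
    intro n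
    rw [norm_div, Complex.norm_real, Real.norm_of_nonneg hM.le, div_le_one hM]
    exact hcc1 n
  have hT1 := hT b q r m K p hb hp0 hp1 g (fun n => cc n / (M : ℂ)) hc'
  have hB1 := stab2 hL hE b q r m K hb hrm p hp0 hp1 Φ
  have e0 : ∑ n, g n * ∑ a ∈ range b, (Φ a n : ℂ) * c a = ∑ n, g n * cc n := by
    rw [hcc]
  have e1 : ∑ n, g n * cc n = (M : ℂ) *
      (∑ n, ∑ t, law b q r m K p t * (g n * (cc (n + t) / (M : ℂ))) +
        ∑ n, ∑ t, law b q r m K p t * (g n * (cc n / (M : ℂ) - cc (n + t) / (M : ℂ)))) := by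
    rw [← Finset.sum_add_distrib, Finset.mul_sum]
    refine Finset.sum_congr rfl fun n _ => ?_
    rw [← Finset.sum_add_distrib]
    have e2 : ∀ t, (law b q r m K p t : ℂ) * (g n * (cc (n + t) / (M : ℂ))) +
        law b q r m K p t * (g n * (cc n / (M : ℂ) - cc (n + t) / (M : ℂ))) =
        law b q r m K p t * (g n * (cc n / (M : ℂ))) := by
      intro t
      ring
    rw [Finset.sum_congr rfl fun t _ => e2 t, ← Finset.sum_mul, ← Complex.ofReal_sum, hl1,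
      Complex.ofReal_one, one_mul]
    field_simp
  have h2 : ‖∑ n, ∑ t, (law b q r m K p t : ℂ) *
      (g n * (cc n / (M : ℂ) - cc (n + t) / (M : ℂ)))‖ ≤
      ∑ n, ∑ t, law b q r m K p t * ∑ a ∈ range b, |Φ a n - Φ a (n + t)| := by
    refine (norm_sum_le _ _).trans ?_
    refine Finset.sum_le_sum fun n _ => ?_
    refine (norm_sum_le _ _).trans ?_
    refine Finset.sum_le_sum fun t _ => ?_
    rw [norm_mul, norm_mul, Complex.norm_real, Real.norm_of_nonneg (hl0 t)]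
    refine mul_le_mul_of_nonneg_left ?_ (hl0 t)
    have h3 : ‖cc n / (M : ℂ) - cc (n + t) / (M : ℂ)‖ ≤ ∑ a ∈ range b, |Φ a n - Φ a (n + t)| := by
      rw [← sub_div, norm_div, Complex.norm_real, Real.norm_of_nonneg hM.le, div_le_iff₀ hM,
        mul_comm, hcc]
      exact norm_comb_sub_le b M (fun a => Φ a n) (fun a => Φ a (n + t)) c hc
    calc ‖g n‖ * ‖cc n / (M : ℂ) - cc (n + t) / (M : ℂ)‖
        ≤ 1 * ∑ a ∈ range b, |Φ a n - Φ a (n + t)| :=
          mul_le_mul (hg n) h3 (norm_nonneg _) zero_le_one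
      _ = _ := one_mul _
  have h3 : ‖∑ n, ∑ t, (law b q r m K p t : ℂ) * (g n * (cc (n + t) / (M : ℂ)))‖ ≤
      Real.sqrt ((b : ℝ) ^ K *
        (∑ n, ∑ t, law b q r m K p t * (g n * (starRingEnd ℂ) (g (n + t)))).re) :=
    Real.le_sqrt_of_sq_le hT1
  rw [e0, e1, norm_mul, Complex.norm_real, Real.norm_of_nonneg hM.le]
  refine mul_le_mul_of_nonneg_left ?_ hM.le
  exact (norm_add_le _ _).trans (add_le_add h3 (h2.trans hB1))

/-- the additive influence of a family of functions -/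
noncomputable def Sr (b K : ℕ) (φ : ℕ → ℕ → ℝ) : ℝ :=
  ∑ a ∈ range b, ∑ j ∈ range K, ∑ n ∈ range (b ^ K), (φ n a - φ ((n + b ^ j) % b ^ K) a) ^ 2

/-- one digit and one frequency on `D` -/
lemma corr2_D (hT : StT) (hL : StL) (hE : StEn) (b q r K : ℕ) (hb : 2 ≤ b)
    (hr : r ≤ K) (p : ℝ) (hp0 : 0 ≤ p) (hp1 : p ≤ 1) (M : ℝ) (hM : 0 < M)
    (D : Finset ℕ) (hD : D ⊆ range (b ^ K)) (y : ℕ → ℝ) (φ : ℕ → ℕ → ℝ)
    (hφ0 : ∀ n a, 0 ≤ φ n a) (hφ1 : ∀ n, ∑ a ∈ range b, φ n a = 1) (c : ℕ → ℂ)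
    (hc : ∀ d, ‖c d‖ ≤ M) :
    0 ≤ GG b q r K p D y ∧
    ‖∑ n ∈ D, e (y n) * ∑ a ∈ range b, (φ n a : ℂ) * c a‖ ≤
      M * (Real.sqrt ((b : ℝ) ^ K * GG b q r K p D y) +
        Real.sqrt ((b : ℝ) ^ K * (b * p * ((b : ℝ) ^ q) ^ 2 * Sr b K φ))) := by
  have hx : 0 < b ^ K := Nat.pow_pos (by omega)
  have : NeZero (b ^ K) := ⟨hx.ne'⟩
  let _ : Fintype (ZMod (b ^ K)) := ZMod.fintype (b ^ K)
  have hrm : r + (K - r) / q * q ≤ K := by
    have := Nat.div_mul_le_self (K - r) q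
    omega
  obtain ⟨g, hg⟩ : ∃ g : ZMod (b ^ K) → ℂ, g = fun n =>
    if n.val ∈ D then e (y n.val) else 0 := ⟨_, rfl⟩
  have hg1 : ∀ n, ‖g n‖ ≤ 1 := by
    intro n
    rw [hg]
    show ‖(if n.val ∈ D then e (y n.val) else 0 : ℂ)‖ ≤ 1
    by_cases h : n.val ∈ D
    · rw [if_pos h, norm_e7]
    · rw [if_neg h, norm_zero]
      exact zero_le_one
  have hform : (∑ n : ZMod (b ^ K), ∑ t : ZMod (b ^ K),
      (law b q r ((K - r) / q) K p t : ℂ) * (g n * (starRingEnd ℂ) (g (n + t)))).re =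
      GG b q r K p D y := by
    rw [hg]
    exact form_eq b q r ((K - r) / q) K hb p D hD y
  constructor
  · have h0 := hT b q r ((K - r) / q) K p hb hp0 hp1 g (fun _ => 0) (fun _ => by simp)
    rw [hform] at h0
    have h1 : (0 : ℝ) ≤ (b : ℝ) ^ K * GG b q r K p D y := (sq_nonneg _).trans h0
    have h2 : (0 : ℝ) < (b : ℝ) ^ K := by
      have : (0 : ℝ) < b := by
        have : 0 < b := by omega
        exact_mod_cast this
      positivity
    exact (mul_nonneg_iff_of_pos_left h2).1 h1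
  · have h1 := corr2 hT hL hE b q r ((K - r) / q) K hb hrm p hp0 hp1 M hM g hg1
      (fun a n => φ n.val a) (fun a n => hφ0 _ a) (fun n => hφ1 _) c hc
    rw [hform] at h1
    have h2 : ∑ n : ZMod (b ^ K), g n * ∑ a ∈ range b, (φ n.val a : ℂ) * c a =
        ∑ n ∈ D, e (y n) * ∑ a ∈ range b, (φ n a : ℂ) * c a := by
      have h3 : ∀ n : ZMod (b ^ K), g n * ∑ a ∈ range b, (φ n.val a : ℂ) * c a =
          if n.val ∈ D then e (y n.val) * ∑ a ∈ range b, (φ n.val a : ℂ) * c a else 0 := by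
        intro n
        rw [hg]
        show (if n.val ∈ D then e (y n.val) else 0) * ∑ a ∈ range b, (φ n.val a : ℂ) * c a = _
        by_cases h : n.val ∈ D
        · rw [if_pos h, if_pos h]
        · rw [if_neg h, if_neg h, zero_mul]
      rw [Finset.sum_congr rfl fun n _ => h3 n]
      refine (sum_zmod_ite D hD (fun n => e (y n.val) *
        ∑ a ∈ range b, (φ n.val a : ℂ) * c a)).trans (Finset.sum_congr rfl fun n hn => ?_)
      rw [ZMod.val_cast_of_lt (mem_range.1 (hD hn))]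
    rw [h2] at h1
    refine h1.trans (le_of_eq ?_)
    have h4 : ∑ a ∈ range b, ∑ j ∈ range K, ∑ n : ZMod (b ^ K),
        (φ n.val a - φ (n + (b : ZMod (b ^ K)) ^ j).val a) ^ 2 = Sr b K φ := by
      unfold Sr
      refine Finset.sum_congr rfl fun a _ => Finset.sum_congr rfl fun j _ => ?_
      rw [sum_zmod]
      refine Finset.sum_congr rfl fun n hn => ?_
      have h5 : ((n : ZMod (b ^ K)) + (b : ZMod (b ^ K)) ^ j).val = (n + b ^ j) % b ^ K := by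
        rw [← Nat.cast_pow, ← Nat.cast_add, ZMod.val_natCast]
      rw [h5, ZMod.val_cast_of_lt (mem_range.1 hn)]
    rw [← h4]

/-- the hits at one digit -/
lemma hits2_one (b : ℕ) (hb : 2 ≤ b) (ε : ℝ) (H : ℕ) (c : ℕ → ℤ → ℂ)
    (hc0 : ∀ d, (c d 0).re ≤ 1 / b + ε)
    (hmaj : ∀ d, ∀ y : ℝ, (if Nat.floor ((b : ℝ) * Int.fract y) = d then (1 : ℝ) else 0) ≤
        (∑ k ∈ Icc (-(H : ℤ)) H, c d k * e (k * y)).re)
    (D : Finset ℕ) (f : ℕ → ℕ) (φ : ℕ → ℕ → ℝ) (hφ0 : ∀ n a, 0 ≤ φ n a)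
    (hφ1 : ∀ n, ∑ a ∈ range b, φ n a = 1) (i : ℕ) :
    ∑ n ∈ D, φ n (dig b i (f n)) ≤ (1 / b + ε) * #D +
      ∑ k ∈ Kz H, ‖∑ n ∈ D, e (k * ((f n : ℝ) / (b : ℝ) ^ (i + 1))) *
        ∑ a ∈ range b, (φ n a : ℂ) * c a k‖ := by
  have h1 : ∀ n ∈ D, φ n (dig b i (f n)) ≤ (1 / b + ε) +
      (∑ k ∈ Kz H, e (k * ((f n : ℝ) / (b : ℝ) ^ (i + 1))) *
        ∑ a ∈ range b, (φ n a : ℂ) * c a k).re := by
    intro n _
    have hdig : dig b i (f n) ∈ range b := mem_range.2 (Nat.mod_lt _ (by omega))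
    have h2 : φ n (dig b i (f n)) =
        ∑ a ∈ range b, φ n a * (if dig b i (f n) = a then (1 : ℝ) else 0) := by
      simp only [mul_ite, mul_one, mul_zero]
      rw [Finset.sum_ite_eq, if_pos hdig]
    have h3 : ∀ a ∈ range b, φ n a * (if dig b i (f n) = a then (1 : ℝ) else 0) ≤
        φ n a * (1 / b + ε) + (∑ k ∈ Kz H, e (k * ((f n : ℝ) / (b : ℝ) ^ (i + 1))) *
          ((φ n a : ℂ) * c a k)).re := by
      intro a _
      have h4 := hmaj a ((f n : ℝ) / (b : ℝ) ^ (i + 1))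
      rw [Pool.Agent.Helper43.LJ.floor_fract_dig b hb, sum_Icc_split, Complex.add_re] at h4
      have h5 : (c a 0 * e (((0 : ℤ) : ℝ) * ((f n : ℝ) / (b : ℝ) ^ (i + 1)))).re =
          (c a 0).re := by
        have : e (((0 : ℤ) : ℝ) * ((f n : ℝ) / (b : ℝ) ^ (i + 1))) = 1 := by
          unfold e
          simp
        rw [this, mul_one]
      rw [h5] at h4
      have h6 : (∑ k ∈ Kz H, e (k * ((f n : ℝ) / (b : ℝ) ^ (i + 1))) *
          ((φ n a : ℂ) * c a k)).re =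
          φ n a * (∑ k ∈ Kz H, c a k * e (k * ((f n : ℝ) / (b : ℝ) ^ (i + 1)))).re := by
        rw [← Complex.re_ofReal_mul, Finset.mul_sum]
        congr 1
        exact Finset.sum_congr rfl fun k _ => by ring
      rw [h6, ← mul_add]
      refine mul_le_mul_of_nonneg_left (h4.trans ?_) (hφ0 n a)
      have h7 := hc0 a
      linarith
    rw [h2]
    refine (Finset.sum_le_sum h3).trans (le_of_eq ?_)
    rw [Finset.sum_add_distrib, ← Finset.sum_mul, hφ1 n, one_mul, ← Complex.re_sum,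
      Finset.sum_comm]
    congr 2
    refine Finset.sum_congr rfl fun k _ => ?_
    rw [Finset.mul_sum]
  refine (Finset.sum_le_sum h1).trans ?_
  rw [Finset.sum_add_distrib, Finset.sum_const, nsmul_eq_mul, mul_comm (#D : ℝ)]
  refine add_le_add le_rfl ?_
  rw [← Complex.re_sum, Finset.sum_comm]
  exact (Complex.re_le_norm _).trans (norm_sum_le _ _)

/-- the hits, summed over the digits -/
lemma hits2_all (b : ℕ) (hb : 2 ≤ b) (ε : ℝ) (hε : 0 < ε) (H : ℕ) (c : ℕ → ℤ → ℂ)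
    (hc0 : ∀ d, (c d 0).re ≤ 1 / b + ε / 4)
    (hmaj : ∀ d, ∀ y : ℝ, (if Nat.floor ((b : ℝ) * Int.fract y) = d then (1 : ℝ) else 0) ≤
        (∑ k ∈ Icc (-(H : ℤ)) H, c d k * e (k * y)).re)
    (q K : ℕ) (hqK : 4 * q ≤ ε * K) (D : Finset ℕ) (f : ℕ → ℕ) (φ : ℕ → ℕ → ℕ → ℝ)
    (hφ0 : ∀ i n a, 0 ≤ φ i n a) (hφ1 : ∀ i n, ∑ a ∈ range b, φ i n a = 1)
    (hhits : (1 / b + ε) * K * #D ≤ ∑ n ∈ D, ∑ i ∈ range K, φ i n (dig b i (f n))) :
    ε / 2 * K * #D ≤ ∑ i ∈ (range K).filter (fun i => q ≤ i + 1), ∑ k ∈ Kz H,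
      ‖∑ n ∈ D, e (k * ((f n : ℝ) / (b : ℝ) ^ (i + 1))) *
        ∑ a ∈ range b, (φ i n a : ℂ) * c a k‖ := by
  have hb0 : (0 : ℝ) < b := by
    have : 0 < b := by omega
    exact_mod_cast this
  rw [Finset.sum_comm, ← Finset.sum_filter_add_sum_filter_not (range K) (fun i => q ≤ i + 1)]
    at hhits
  have h2 : ∑ i ∈ (range K).filter (fun i => ¬ q ≤ i + 1),
      ∑ n ∈ D, φ i n (dig b i (f n)) ≤ q * #D := by
    have h3 : ∀ i ∈ (range K).filter (fun i => ¬ q ≤ i + 1),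
        ∑ n ∈ D, φ i n (dig b i (f n)) ≤ #D := by
      intro i _
      calc ∑ n ∈ D, φ i n (dig b i (f n)) ≤ ∑ _n ∈ D, (1 : ℝ) := by
            refine Finset.sum_le_sum fun n _ => ?_
            rw [← hφ1 i n]
            exact Finset.single_le_sum (f := fun a => φ i n a) (fun a _ => hφ0 i n a)
              (mem_range.2 (Nat.mod_lt _ (by omega)))
        _ = #D := by simp
    refine (Finset.sum_le_sum h3).trans ?_
    rw [Finset.sum_const, nsmul_eq_mul]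
    refine mul_le_mul_of_nonneg_right ?_ (Nat.cast_nonneg _)
    have h4 : #((range K).filter (fun i => ¬ q ≤ i + 1)) ≤ #(range q) := by
      refine Finset.card_le_card fun i hi => ?_
      have := (mem_filter.1 hi).2
      rw [mem_range]
      omega
    rw [card_range] at h4
    exact_mod_cast h4
  have h5 : ∑ i ∈ (range K).filter (fun i => q ≤ i + 1),
      ∑ n ∈ D, φ i n (dig b i (f n)) ≤ K * ((1 / b + ε / 4) * #D) +
      ∑ i ∈ (range K).filter (fun i => q ≤ i + 1), ∑ k ∈ Kz H,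
      ‖∑ n ∈ D, e (k * ((f n : ℝ) / (b : ℝ) ^ (i + 1))) *
        ∑ a ∈ range b, (φ i n a : ℂ) * c a k‖ := by
    refine (Finset.sum_le_sum fun i _ =>
      hits2_one b hb (ε / 4) H c hc0 hmaj D f (φ i) (hφ0 i) (hφ1 i) i).trans ?_
    rw [Finset.sum_add_distrib, Finset.sum_const, nsmul_eq_mul]
    refine add_le_add ?_ le_rfl
    refine mul_le_mul_of_nonneg_right ?_ (by positivity)
    have h6 : #((range K).filter (fun i => q ≤ i + 1)) ≤ #(range K) :=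
      Finset.card_filter_le _ _
    rw [card_range] at h6
    exact_mod_cast h6
  have h7 : (q : ℝ) * #D ≤ ε / 4 * K * #D := by
    refine mul_le_mul_of_nonneg_right ?_ (Nat.cast_nonneg _)
    linarith
  nlinarith

/-- the sum over the digits of the upper bounds -/
lemma upper2 (q K H : ℕ) (M lam μ β x s : ℝ) (hM : 0 < M) (hlam : 0 < lam) (hμ : 0 < μ)
    (hβ : 0 ≤ β) (hx : 0 ≤ x)
    (A G : ℕ → ℤ → ℝ) (S : ℕ → ℝ) (hS : ∀ i, 0 ≤ S i) (hG : ∀ i ∈ (range K).filter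
      (fun i => q ≤ i + 1), ∀ k ∈ Kz H, 0 ≤ G i k ∧
      A i k ≤ M * (Real.sqrt (x * G i k) + Real.sqrt (x * (β * S i))))
    (hsens : ∑ i ∈ range K, S i ≤ s * K * x) :
    ∑ i ∈ (range K).filter (fun i => q ≤ i + 1), ∑ k ∈ Kz H, A i k ≤
      M * H * lam * (K * x) + M / (2 * lam) *
        ∑ i ∈ (range K).filter (fun i => q ≤ i + 1), ∑ k ∈ Kz H, G i k +
      (M * H * μ * (K * x) + M * H / μ * (β * s) * (K * x)) := by
  have h1 : ∀ i ∈ (range K).filter (fun i => q ≤ i + 1), ∑ k ∈ Kz H, A i k ≤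
      M * H * lam * x + M / (2 * lam) * ∑ k ∈ Kz H, G i k +
        (M * H * μ * x + M * H / μ * β * S i) := by
    intro i hi
    have h2 : ∀ k ∈ Kz H, A i k ≤ M * (lam * x / 2) + M / (2 * lam) * G i k +
        (M * (μ * x / 2) + M / (2 * μ) * (β * S i)) := by
      intro k hk
      obtain ⟨h3, h4⟩ := hG i hi k hk
      have h5 := sqrt_le_lin x (G i k) lam hx h3 hlam
      have h5' := sqrt_le_lin x (β * S i) μ hx (mul_nonneg hβ (hS i)) hμ
      have h6 := mul_le_mul_of_nonneg_left (add_le_add h5 h5') hM.le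
      have h7 : M * (lam * x / 2 + G i k / (2 * lam) + (μ * x / 2 + β * S i / (2 * μ))) =
          M * (lam * x / 2) + M / (2 * lam) * G i k +
            (M * (μ * x / 2) + M / (2 * μ) * (β * S i)) := by
        field_simp
      rw [h7] at h6
      linarith
    refine (Finset.sum_le_sum h2).trans (le_of_eq ?_)
    rw [Finset.sum_add_distrib, Finset.sum_add_distrib, Finset.sum_const, Finset.sum_const,
      Pool.Agent.Helper43.SC.card_Kz, ← Finset.mul_sum, nsmul_eq_mul, nsmul_eq_mul]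
    push_cast
    field_simp
  refine (Finset.sum_le_sum h1).trans ?_
  rw [Finset.sum_add_distrib, Finset.sum_add_distrib, Finset.sum_add_distrib, Finset.sum_const,
    Finset.sum_const, ← Finset.mul_sum, ← Finset.mul_sum, nsmul_eq_mul, nsmul_eq_mul]
  have h8 : (#((range K).filter (fun i => q ≤ i + 1)) : ℝ) ≤ K := by
    have h6 : #((range K).filter (fun i => q ≤ i + 1)) ≤ #(range K) :=
      Finset.card_filter_le _ _
    rw [card_range] at h6
    exact_mod_cast h6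
  have h9 : ∑ i ∈ (range K).filter (fun i => q ≤ i + 1), S i ≤ s * K * x :=
    (Finset.sum_le_sum_of_subset_of_nonneg (Finset.filter_subset _ _)
      fun i _ _ => hS i).trans hsens
  have h10 : (#((range K).filter (fun i => q ≤ i + 1)) : ℝ) * (M * H * lam * x) ≤
      K * (M * H * lam * x) := mul_le_mul_of_nonneg_right h8 (by positivity)
  have h10' : (#((range K).filter (fun i => q ≤ i + 1)) : ℝ) * (M * H * μ * x) ≤
      K * (M * H * μ * x) := mul_le_mul_of_nonneg_right h8 (by positivity)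
  have h11 : M * H / μ * β * ∑ i ∈ (range K).filter (fun i => q ≤ i + 1), S i ≤
      M * H / μ * β * (s * K * x) := mul_le_mul_of_nonneg_left h9 (by positivity)
  have h12 : (K : ℝ) * (M * H * lam * x) = M * H * lam * (K * x) := by ring
  have h12' : (K : ℝ) * (M * H * μ * x) = M * H * μ * (K * x) := by ring
  have h13 : M * H / μ * β * (s * K * x) = M * H / μ * (β * s) * (K * x) := by ring
  rw [h12] at h10
  rw [h12'] at h10'
  rw [h13] at h11
  linarith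

/-- (F1) the bridge -/
theorem stC2 (hT : StT) (hL : StL) (hE : StEn) : StC2 := by
  intro b hb ε δ hε hδ
  obtain ⟨H, M, c, hH, hM, hc, hc0, hmaj⟩ := maj_bdd b hb (ε / 4) (by positivity)
  have hbR : (2 : ℝ) ≤ b := by exact_mod_cast hb
  have hb0 : (0 : ℝ) < b := by linarith
  have hHR : (1 : ℝ) ≤ H := by exact_mod_cast hH
  have hH0 : (0 : ℝ) < H := by linarith
  have hM0 : 0 < M := by linarith
  obtain ⟨a, ha⟩ : ∃ a : ℝ, a = ε * δ := ⟨_, rfl⟩
  have ha0 : 0 < a := by rw [ha]; positivity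
  refine ⟨H, a ^ 2 / (32 * M ^ 2 * H ^ 2), hH, by positivity, ?_⟩
  intro q hq
  obtain ⟨Q, hQ⟩ : ∃ Q : ℝ, Q = (b : ℝ) ^ q := ⟨_, rfl⟩
  have hQ0 : 0 < Q := by rw [hQ]; positivity
  obtain ⟨c₁, hc₁⟩ : ∃ c₁ : ℝ, c₁ = min (1 / 2) (a ^ 2 / (256 * M ^ 2 * H ^ 2 * (b * Q ^ 2))) :=
    ⟨_, rfl⟩
  have hc₁0 : 0 < c₁ := by
    rw [hc₁]
    exact lt_min (by norm_num) (by positivity)
  have hc₁1 : c₁ ≤ 1 / 2 := by
    rw [hc₁]
    exact min_le_left _ _
  have hc₁2 : c₁ ≤ a ^ 2 / (256 * M ^ 2 * H ^ 2 * (b * Q ^ 2)) := by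
    rw [hc₁]
    exact min_le_right _ _
  refine ⟨c₁, hc₁0, hc₁1, ?_⟩
  intro K hqK s hs D f φ hD hDc hφ0 hφ1 hsens hhits
  have hs0 : 0 < s := by linarith
  obtain ⟨p, hp⟩ : ∃ p : ℝ, p = c₁ / s := ⟨_, rfl⟩
  rw [← hp]
  have hp0 : 0 ≤ p := by rw [hp]; positivity
  have hp1 : p ≤ 1 := by
    rw [hp, div_le_one hs0]
    linarith
  have hps : p * s = c₁ := by
    rw [hp]
    field_simp
  obtain ⟨x, hx⟩ : ∃ x : ℝ, x = (b : ℝ) ^ K := ⟨_, rfl⟩
  have hx0 : 0 < x := by rw [hx]; positivity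
  -- lower bound
  have hlow := hits2_all b hb ε hε H c hc0 hmaj q K hqK D f φ hφ0 hφ1 hhits
  -- upper bound
  have hSr0 : ∀ i, 0 ≤ Sr b K (φ i) := fun i => Finset.sum_nonneg fun _ _ =>
    Finset.sum_nonneg fun _ _ => Finset.sum_nonneg fun _ _ => sq_nonneg _
  have hup := upper2 q K H M (a / (8 * M * H)) (a / (16 * M * H)) (b * p * Q ^ 2) x s
    hM0 (by positivity) (by positivity) (by positivity) hx0.le
    (fun i k => ‖∑ n ∈ D, e (k * ((f n : ℝ) / (b : ℝ) ^ (i + 1))) *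
        ∑ a ∈ range b, (φ i n a : ℂ) * c a k‖)
    (fun i k => GG b q ((i + 1) % q) K p D (fun n => k * ((f n : ℝ) / (b : ℝ) ^ (i + 1))))
    (fun i => Sr b K (φ i)) hSr0
    (fun i hi k _ => by
      obtain ⟨h1, h2⟩ := mem_filter.1 hi
      have h1' := mem_range.1 h1
      have hr : (i + 1) % q ≤ K := (Nat.mod_lt _ (by omega)).le.trans (by omega)
      have h3 := corr2_D hT hL hE b q ((i + 1) % q) K hb hr p hp0 hp1 M hM0 D hD
        (fun n => k * ((f n : ℝ) / (b : ℝ) ^ (i + 1))) (φ i) (hφ0 i) (hφ1 i)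
        (fun d => c d k) (fun d => hc d k)
      rw [hx, hQ]
      exact h3)
    (by rw [hx]; exact hsens)
  -- the sum of the forms
  obtain ⟨W, hW⟩ : ∃ W : ℕ → ℝ, W = fun r => ∑ n ∈ D, ∑ n' ∈ D,
      law b q r ((K - r) / q) K p ((n' : ZMod (b ^ K)) - n) *
        ∑ B : Fin ((K - r) / q), ka H (((f n : ℝ) - f n') / (b : ℝ) ^ (r + (B + 1) * q)) :=
    ⟨_, rfl⟩
  have hsum : ∑ i ∈ (range K).filter (fun i => q ≤ i + 1), ∑ k ∈ Kz H,
      GG b q ((i + 1) % q) K p D (fun n => k * ((f n : ℝ) / (b : ℝ) ^ (i + 1))) =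
      2 * H * ∑ r ∈ range q, W r := by
    obtain ⟨Ψ, hΨ⟩ : ∃ Ψ : ℕ → ℕ → ℝ, ∀ r j, Ψ r j = 2 * (H : ℝ) * ∑ n ∈ D, ∑ n' ∈ D,
          law b q r ((K - r) / q) K p ((n' : ZMod (b ^ K)) - n) *
            ka H (((f n : ℝ) - f n') / (b : ℝ) ^ j) := ⟨_, fun r j => rfl⟩
    have h1 : ∀ i ∈ (range K).filter (fun i => q ≤ i + 1), ∑ k ∈ Kz H,
        GG b q ((i + 1) % q) K p D (fun n => k * ((f n : ℝ) / (b : ℝ) ^ (i + 1))) =
        Ψ ((i + 1) % q) (i + 1) := by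
      intro i _
      rw [hΨ]
      exact sum_GG b q ((i + 1) % q) K p H hH D f (i + 1)
    rw [Finset.sum_congr rfl h1, sum_blocks q K hq Ψ, Finset.mul_sum]
    refine Finset.sum_congr rfl fun r _ => ?_
    simp only [hΨ]
    rw [← Finset.mul_sum, hW]
    congr 1
    rw [Finset.sum_comm]
    refine Finset.sum_congr rfl fun n _ => ?_
    rw [Finset.sum_comm]
    refine Finset.sum_congr rfl fun n' _ => ?_
    rw [← Finset.mul_sum, ← Fin.sum_univ_eq_sum_range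
      (fun B => ka H (((f n : ℝ) - f n') / (b : ℝ) ^ (r + (B + 1) * q)))]
  have hcard : (∑ r ∈ range q, (((K - r) / q : ℕ) : ℝ)) ≤ K := by
    have h1 := sum_blocks q K hq (fun _ _ => (1 : ℕ))
    simp only [Finset.sum_const, smul_eq_mul, mul_one, card_range] at h1
    have h2 : #((range K).filter (fun i => q ≤ i + 1)) ≤ #(range K) :=
      Finset.card_filter_le _ _
    rw [card_range, h1] at h2
    exact_mod_cast h2
  rw [hsum] at hup
  have hlow2 : a / 2 * (K * x) ≤ ε / 2 * K * #D := by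
    have h1 : δ * x ≤ #D := by rw [hx]; exact hDc
    have h2 : a / 2 * (K * x) = ε / 2 * K * (δ * x) := by rw [ha]; ring
    rw [h2]
    exact mul_le_mul_of_nonneg_left h1 (by positivity)
  have hKx : 0 ≤ (K : ℝ) * x := by positivity
  have e1 : M * H * (a / (8 * M * H)) = a / 8 := by field_simp
  have e2 : M / (2 * (a / (8 * M * H))) * (2 * H * ∑ r ∈ range q, W r) =
      8 * M ^ 2 * H ^ 2 / a * ∑ r ∈ range q, W r := by
    field_simp
  have e1' : M * H * (a / (16 * M * H)) = a / 16 := by field_simp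
  have e3 : M * H / (a / (16 * M * H)) * (b * p * Q ^ 2 * s) ≤ a / 16 := by
    have h0 : M * H / (a / (16 * M * H)) * (b * p * Q ^ 2 * s) =
        16 * M ^ 2 * H ^ 2 * (b * Q ^ 2) / a * (p * s) := by
      field_simp
    rw [h0, hps]
    have h1 : 16 * M ^ 2 * H ^ 2 * (b * Q ^ 2) / a * c₁ ≤
        16 * M ^ 2 * H ^ 2 * (b * Q ^ 2) / a * (a ^ 2 / (256 * M ^ 2 * H ^ 2 * (b * Q ^ 2))) :=
      mul_le_mul_of_nonneg_left hc₁2 (by positivity)
    refine h1.trans (le_of_eq ?_)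
    field_simp
    norm_num
  rw [e1, e2, e1'] at hup
  have e4 : M * H / (a / (16 * M * H)) * (b * p * Q ^ 2 * s) * (K * x) ≤ a / 16 * (K * x) :=
    mul_le_mul_of_nonneg_right e3 hKx
  have hfin : a / 4 * (K * x) ≤ 8 * M ^ 2 * H ^ 2 / a * ∑ r ∈ range q, W r := by
    have h1 := hlow2.trans (hlow.trans hup)
    linarith
  have hfin2 : a ^ 2 / (32 * M ^ 2 * H ^ 2) * (K * x) ≤ ∑ r ∈ range q, W r := by
    have h1 := mul_le_mul_of_nonneg_left hfin
      (show 0 ≤ a / (8 * M ^ 2 * H ^ 2) by positivity)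
    have h2 : a / (8 * M ^ 2 * H ^ 2) * (a / 4 * (K * x)) =
        a ^ 2 / (32 * M ^ 2 * H ^ 2) * (K * x) := by
      field_simp
      ring
    have h3 : a / (8 * M ^ 2 * H ^ 2) * (8 * M ^ 2 * H ^ 2 / a * ∑ r ∈ range q, W r) =
        ∑ r ∈ range q, W r := by
      field_simp
    rw [h2, h3] at h1
    exact h1
  have hfin3 : ∑ r ∈ range q, a ^ 2 / (32 * M ^ 2 * H ^ 2) * (((K - r) / q : ℕ) * x) ≤
      ∑ r ∈ range q, W r := by
    rw [← Finset.mul_sum, ← Finset.sum_mul]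
    refine le_trans ?_ hfin2
    refine mul_le_mul_of_nonneg_left ?_ (by positivity)
    exact mul_le_mul_of_nonneg_right hcard hx0.le
  obtain ⟨r, hr, hrW⟩ := Finset.exists_le_of_sum_le
    (Finset.nonempty_range_iff.2 (by omega)) hfin3
  refine ⟨r, mem_range.1 hr, ?_⟩
  rw [hW, hx] at hrW
  exact hrW

end Pool.Agent.Helper43.HD
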